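import Mathlib
import Pool.Agent.Lib.MP_41af23_an.Hex1

set_option autoImplicit false

namespace Pool.Agent.Results.MP_41af23_an.FaceLatticeNotInvariant

open Pool.Agent.Lib.MP_41af23_an MeasureTheory

/-- No three points of `S` are collinear. -/
def GenPos (S : Finset ℂ) : Prop :=
  ∀ a ∈ S, ∀ b ∈ S, ∀ c ∈ S, a ≠ b → b ≠ c → a ≠ c → chi a b c ≠ 0

theorem P_inj {P : Fin 6 → ℤ × ℤ} {N : ℕ} {Q : Fin N → ℤ × ℤ} (hd : Data N P Q) :
    Function.Injective fun i => toC (P i) := by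
  intro i j h
  by_contra hij
  obtain ⟨m, hjm, him⟩ : ∃ m, j ≠ m ∧ i ≠ m := by
    clear h
    revert i j; decide
  have h1 := hd.gen i j m hij hjm him
  have h2 : P i = P j := toC_inj h
  apply h1
  rw [h2]
  simp [dz]

theorem genPos {P : Fin 6 → ℤ × ℤ} {N : ℕ} {Q : Fin N → ℤ × ℤ} (hd : Data N P Q) :
    GenPos (pts P) := by
  intro a ha b hb c hc hab hbc hac
  obtain ⟨i, rfl⟩ := mem_pts.1 ha
  obtain ⟨j, rfl⟩ := mem_pts.1 hb
  obtain ⟨m, rfl⟩ := mem_pts.1 hc
  rw [chi_toC]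
  intro h
  exact hd.gen i j m (fun h => hab (by rw [h])) (fun h => hbc (by rw [h]))
    (fun h => hac (by rw [h])) (sign_eq_zero_iff.1 h)

theorem spanning {P : Fin 6 → ℤ × ℤ} {N : ℕ} {Q : Fin N → ℤ × ℤ} (hd : Data N P Q) :
    Spanning (pts P) := by
  refine ⟨_, mem_pts.2 ⟨0, rfl⟩, _, mem_pts.2 ⟨1, rfl⟩, _, mem_pts.2 ⟨2, rfl⟩, ?_⟩
  rw [chi_toC]
  intro h
  exact hd.gen 0 1 2 (by decide) (by decide) (by decide) (sign_eq_zero_iff.1 h)

/-- enumeration of the points -/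
noncomputable def enum {P : Fin 6 → ℤ × ℤ} {N : ℕ} {Q : Fin N → ℤ × ℤ} (hd : Data N P Q) :
    Fin 6 ≃ pts P :=
  Equiv.ofBijective (fun i => ⟨toC (P i), mem_pts.2 ⟨i, rfl⟩⟩) (by
    constructor
    · intro i j h
      exact P_inj hd (congrArg Subtype.val h)
    · rintro ⟨z, hz⟩
      obtain ⟨i, rfl⟩ := mem_pts.1 hz
      exact ⟨i, rfl⟩)

theorem enum_val {P : Fin 6 → ℤ × ℤ} {N : ℕ} {Q : Fin N → ℤ × ℤ} (hd : Data N P Q) (i : Fin 6) :
    (enum hd i : ℂ) = toC (P i) := rfl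

theorem sign_P : ∀ i j k : Fin 6, SignType.sign (dz (P1 i) (P1 j) (P1 k)) =
    SignType.sign (dz (P0 i) (P0 j) (P0 k)) := by
  decide +kernel

theorem sameOM : SameOM (pts P0) (pts P1) := by
  refine ⟨(enum data0).symm.trans (enum data1), ?_⟩
  intro a b c
  obtain ⟨i, rfl⟩ := (enum data0).surjective a
  obtain ⟨j, rfl⟩ := (enum data0).surjective b
  obtain ⟨k, rfl⟩ := (enum data0).surjective c
  simp only [Equiv.trans_apply, Equiv.symm_apply_apply, enum_val]
  rw [chi_toC, chi_toC, sign_P]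

/-- **Q1 (disproved):** two sets of six points in general position in the plane with the same
oriented matroid whose cones `K_pos` have non-isomorphic face lattices. -/
theorem result : ∃ S S' : Finset ℂ, Spanning S ∧ Spanning S' ∧ GenPos S ∧ GenPos S' ∧
    S.card = 6 ∧ S'.card = 6 ∧ SameOM S S' ∧
    IsEmpty (FaceLattice (Kpos S) ≃o FaceLattice (Kpos S')) := by
  have hcard : ∀ {P : Fin 6 → ℤ × ℤ} {N : ℕ} {Q : Fin N → ℤ × ℤ}, Data N P Q →
      (pts P).card = 6 := by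
    intro P N Q hd
    have h := Fintype.card_congr (enum hd)
    simpa using h.symm
  refine ⟨pts P0, pts P1, spanning data0, spanning data1, genPos data0, genPos data1,
    hcard data0, hcard data1, sameOM, ⟨fun e => ?_⟩⟩
  have h := card_coat_eq e
  rw [card_facets data0 (by norm_num), card_facets data1 (by norm_num)] at h
  exact absurd h (by norm_num)

end Pool.Agent.Results.MP_41af23_an.FaceLatticeNotInvariant
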